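import Mathlib

/-!
# MP_6d30b5_co: the periodicity of the minimum number of induced connected triples fails

For `p = 2`, `n = 4 a + 3` with `a ≥ 3` and `e = 6 a - 2` we have `p n / 2 < e`,
`e + P_p < (p + 1) n / 2` and `m(n, e + P_p) - m(n, e) ≥ 9`, while `D_p = 8`.
-/

set_option autoImplicit false

namespace Pool.Agent.Results.MP_6d30b5_co.NotPeriodic

open Finset

/-- `s_3(G)`: the number of 3-element sets of vertices whose induced subgraph is connected. -/
noncomputable def s3 {n : ℕ} (G : SimpleGraph (Fin n)) : ℕ :=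
  {S : Finset (Fin n) | S.card = 3 ∧ (G.induce (S : Set (Fin n))).Connected}.ncard

/-- `m(n, e)`: the least value of `s_3(G)` over graphs with `n` vertices and `e` edges. -/
noncomputable def m (n e : ℕ) : ℕ :=
  sInf {k : ℕ | ∃ G : SimpleGraph (Fin n), G.edgeSet.ncard = e ∧ s3 G = k}

/-- `v` is adjacent to all other elements of `S` -/
def Ctr {n : ℕ} (G : SimpleGraph (Fin n)) (S : Finset (Fin n)) (v : Fin n) : Prop :=
  v ∈ S ∧ ∀ w ∈ S, w ≠ v → G.Adj v w

lemma connected_iff {n : ℕ} (G : SimpleGraph (Fin n)) (S : Finset (Fin n)) (hS : S.card = 3) :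
    (G.induce (S : Set (Fin n))).Connected ↔ ∃ v, Ctr G S v := by
  constructor
  · intro hc
    obtain ⟨x, y, z, hxy, hxz, hyz, rfl⟩ := Finset.card_eq_three.1 hS
    have hnb : ∀ u ∈ ({x, y, z} : Finset (Fin n)), ∀ u' ∈ ({x, y, z} : Finset (Fin n)), u ≠ u' →
        ∃ w ∈ ({x, y, z} : Finset (Fin n)), G.Adj u w := by
      intro u hu u' hu' hne
      obtain ⟨p⟩ := hc.preconnected ⟨u, hu⟩ ⟨u', hu'⟩
      cases p with
      | nil => exact absurd rfl hne
      | cons h q => exact ⟨_, Subtype.property _, h⟩
    have h1 := hnb x (by simp) y (by simp) hxy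
    have h2 := hnb y (by simp) x (by simp) hxy.symm
    have h3 := hnb z (by simp) x (by simp) hxz.symm
    simp only [mem_insert, mem_singleton, exists_eq_or_imp, exists_eq_left, SimpleGraph.irrefl,
      false_or, or_false] at h1 h2 h3
    have key : (G.Adj x y ∧ G.Adj x z) ∨ (G.Adj y x ∧ G.Adj y z) ∨ (G.Adj z x ∧ G.Adj z y) := by
      rcases h1 with h1 | h1 <;> rcases h2 with h2 | h2 <;> rcases h3 with h3 | h3 <;>
        simp [h1, h2, h3, h1.symm, h2.symm, h3.symm]
    rcases key with ⟨ha, hb⟩ | ⟨ha, hb⟩ | ⟨ha, hb⟩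
    · refine ⟨x, by simp, fun w hw hne => ?_⟩
      simp only [mem_insert, mem_singleton] at hw
      rcases hw with rfl | rfl | rfl
      · exact absurd rfl hne
      · exact ha
      · exact hb
    · refine ⟨y, by simp, fun w hw hne => ?_⟩
      simp only [mem_insert, mem_singleton] at hw
      rcases hw with rfl | rfl | rfl
      · exact ha
      · exact absurd rfl hne
      · exact hb
    · refine ⟨z, by simp, fun w hw hne => ?_⟩
      simp only [mem_insert, mem_singleton] at hw
      rcases hw with rfl | rfl | rfl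
      · exact ha
      · exact hb
      · exact absurd rfl hne
  · rintro ⟨v, hv, hadj⟩
    have hr : ∀ w : (S : Set (Fin n)), (G.induce (S : Set (Fin n))).Reachable ⟨v, hv⟩ w := by
      intro w
      by_cases h : w.1 = v
      · have : w = ⟨v, hv⟩ := Subtype.ext h
        rw [this]
      · exact SimpleGraph.Adj.reachable (show G.Adj v w.1 from hadj w.1 w.2 h)
    have : Nonempty (S : Set (Fin n)) := ⟨⟨v, hv⟩⟩
    exact ⟨fun a b => (hr a).symm.trans (hr b)⟩

section counting

variable {n : ℕ} (G : SimpleGraph (Fin n))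

open Classical in
/-- the number of centres of a triple -/
noncomputable def c (S : Finset (Fin n)) : ℕ := (univ.filter fun v => Ctr G S v).card

open Classical in
lemma c_cases (S : Finset (Fin n)) (hS : S.card = 3) : c G S = 0 ∨ c G S = 1 ∨ c G S = 3 := by
  obtain ⟨x, y, z, hxy, hxz, hyz, rfl⟩ := Finset.card_eq_three.1 hS
  have hx : Ctr G {x, y, z} x ↔ G.Adj x y ∧ G.Adj x z := by
    simp only [Ctr, mem_insert, mem_singleton, forall_eq_or_imp, forall_eq]
    simp [hxy.symm, hxz.symm]
  have hy : Ctr G {x, y, z} y ↔ G.Adj x y ∧ G.Adj y z := by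
    simp only [Ctr, mem_insert, mem_singleton, forall_eq_or_imp, forall_eq]
    simp [hxy, hyz.symm, G.adj_comm y x]
  have hz : Ctr G {x, y, z} z ↔ G.Adj x z ∧ G.Adj y z := by
    simp only [Ctr, mem_insert, mem_singleton, forall_eq_or_imp, forall_eq]
    simp [hxz, hyz, G.adj_comm z x, G.adj_comm z y]
  have hset : (univ.filter fun v => Ctr G {x, y, z} v) =
      ({x, y, z} : Finset (Fin n)).filter fun v => Ctr G {x, y, z} v := by
    ext v
    simp only [mem_filter, mem_univ, true_and]
    exact ⟨fun h => ⟨h.1, h⟩, fun h => h.2⟩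
  unfold c
  rw [hset, Finset.filter_insert, Finset.filter_insert, Finset.filter_singleton]
  simp only [hx, hy, hz]
  by_cases h1 : G.Adj x y <;> by_cases h2 : G.Adj x z <;> by_cases h3 : G.Adj y z <;>
    simp [h1, h2, h3, hxy, hxz, hyz]

open Classical in
lemma sum_c : ∑ S ∈ univ.filter (fun S : Finset (Fin n) => S.card = 3), c G S =
    ∑ v : Fin n, (G.degree v).choose 2 := by
  unfold c
  simp only [Finset.card_filter]
  rw [Finset.sum_comm]
  refine Finset.sum_congr rfl fun v _ => ?_
  rw [← Finset.card_filter, Finset.filter_filter, ← SimpleGraph.card_neighborFinset_eq_degree,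
    ← Finset.card_powersetCard]
  refine Finset.card_bij' (fun S _ => S.erase v) (fun P _ => insert v P) ?_ ?_ ?_ ?_
  · intro S hS
    simp only [mem_filter, mem_univ, true_and] at hS
    rw [mem_powersetCard]
    refine ⟨?_, by rw [card_erase_of_mem hS.2.1, hS.1]⟩
    intro w hw
    rw [mem_erase] at hw
    rw [SimpleGraph.mem_neighborFinset]
    exact hS.2.2 w hw.2 hw.1
  · intro P hP
    rw [mem_powersetCard] at hP
    have hv : v ∉ P := fun h => by
      have := hP.1 h
      rw [SimpleGraph.mem_neighborFinset] at this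
      exact G.irrefl this
    simp only [mem_filter, mem_univ, true_and]
    refine ⟨by rw [card_insert_of_notMem hv, hP.2], mem_insert_self _ _, ?_⟩
    intro w hw hne
    rcases mem_insert.1 hw with rfl | hw
    · exact absurd rfl hne
    · have := hP.1 hw
      rwa [SimpleGraph.mem_neighborFinset] at this
  · intro S hS
    simp only [mem_filter, mem_univ, true_and] at hS
    exact insert_erase hS.2.1
  · intro P hP
    rw [mem_powersetCard] at hP
    have hv : v ∉ P := fun h => by
      have := hP.1 h
      rw [SimpleGraph.mem_neighborFinset] at this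
      exact G.irrefl this
    exact erase_insert hv

open Classical in
/-- the number of triples inducing a path -/
noncomputable def I : ℕ :=
  (univ.filter (fun S : Finset (Fin n) => S.card = 3 ∧ c G S = 1)).card

open Classical in
lemma three_s3 : 3 * s3 G = (∑ v : Fin n, (G.degree v).choose 2) + 2 * I G := by
  have h1 : s3 G = (univ.filter (fun S : Finset (Fin n) => S.card = 3 ∧ c G S ≠ 0)).card := by
    unfold s3
    rw [← Set.ncard_coe_finset]
    congr 1
    ext S
    simp only [Set.mem_ofPred_eq, coe_filter, mem_univ, true_and]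
    refine and_congr_right fun hS => ?_
    rw [connected_iff G S hS]
    unfold c
    rw [ne_eq, Finset.card_eq_zero, ← ne_eq, ← Finset.nonempty_iff_ne_empty]
    constructor
    · rintro ⟨v, hv⟩
      exact ⟨v, by simpa using hv⟩
    · rintro ⟨v, hv⟩
      exact ⟨v, by simpa using hv⟩
  rw [h1, ← sum_c, I, ← Finset.filter_filter, ← Finset.filter_filter, Finset.card_filter,
    Finset.card_filter, Finset.mul_sum, Finset.mul_sum, ← Finset.sum_add_distrib]
  refine Finset.sum_congr rfl fun S hS => ?_
  rcases c_cases G S (by simpa using hS) with h | h | h <;> simp [h]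

open Classical in
lemma mod_three : (∑ v : Fin n, (G.degree v).choose 2) % 3 = I G % 3 := by
  have := three_s3 G
  omega

end counting

section lower

variable {n : ℕ} (G : SimpleGraph (Fin n))

open Classical in
lemma c_eq_one (x b y : Fin n) (hxy : x ≠ y) (hbx : G.Adj b x) (hby : G.Adj b y)
    (hn : ¬ G.Adj x y) : ({x, b, y} : Finset (Fin n)) ∈
      univ.filter (fun S : Finset (Fin n) => S.card = 3 ∧ c G S = 1) := by
  have hcard : ({x, b, y} : Finset (Fin n)).card = 3 :=
    Finset.card_eq_three.2 ⟨x, b, y, hbx.ne.symm, hxy, hby.ne, rfl⟩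
  simp only [mem_filter, mem_univ, true_and]
  refine ⟨hcard, ?_⟩
  unfold c
  rw [Finset.card_eq_one]
  refine ⟨b, ?_⟩
  ext v
  simp only [mem_filter, mem_univ, true_and, mem_singleton]
  constructor
  · rintro ⟨hv, hv'⟩
    simp only [mem_insert, mem_singleton] at hv
    rcases hv with rfl | rfl | rfl
    · exact absurd (hv' y (by simp) hxy.symm) hn
    · rfl
    · exact absurd (hv' x (by simp) hxy).symm hn
  · rintro rfl
    refine ⟨by simp, ?_⟩
    intro w hw hne
    simp only [mem_insert, mem_singleton] at hw
    rcases hw with rfl | rfl | rfl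
    · exact hbx
    · exact absurd rfl hne
    · exact hby

open Classical in
/-- The lower bound: a graph with `4 a + 3` vertices and `6 a + 4` edges has at least `4 a + 4`
connected triples. -/
lemma lower (a : ℕ) (G : SimpleGraph (Fin (4 * a + 3))) (he : G.edgeSet.ncard = 6 * a + 4) :
    4 * a + 4 ≤ s3 G := by
  by_contra hlt
  push Not at hlt
  have hE : G.edgeFinset.card = 6 * a + 4 := by
    rw [← he, ← SimpleGraph.coe_edgeFinset, Set.ncard_coe_finset]
  have hdeg : ∑ v, G.degree v = 12 * a + 8 := by
    rw [G.sum_degrees_eq_twice_card_edges, hE]; ring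
  have h3 := three_s3 G
  -- convexity
  have hconv : ∀ d : ℕ, 2 * (d : ℤ) - 3 ≤ (d.choose 2 : ℕ) := by
    intro d
    have := Nat.choose_two_right d
    rcases d with _ | _ | _ | _ | d
    · simp
    · simp
    · simp [Nat.choose]
    · simp [Nat.choose]
    · have h1 : ((d + 4).choose 2 : ℕ) = (d + 4) * (d + 3) / 2 := by
        rw [Nat.choose_two_right]; rfl
      have h2 : 2 * (d + 4) ≤ (d + 4) * (d + 3) / 2 + 3 := by
        have : (2 * (d + 4) - 3) * 2 ≤ (d + 4) * (d + 3) := by
          have : (2 * (d + 4) - 3) = 2 * d + 5 := by omega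
          rw [this]; nlinarith
        omega
      push_cast at h1 h2 ⊢
      rw [h1]
      omega
  have hsum : (12 * a + 7 : ℤ) ≤ ∑ v, ((G.degree v).choose 2 : ℤ) := by
    calc (12 * a + 7 : ℤ) = 2 * (12 * a + 8) - 3 * (4 * a + 3) := by ring
      _ = ∑ v, (2 * (G.degree v : ℤ) - 3) := by
        rw [Finset.sum_sub_distrib, ← Finset.mul_sum]
        have : (∑ v, (G.degree v : ℤ)) = 12 * a + 8 := by exact_mod_cast hdeg
        rw [this]
        simp
        ring
      _ ≤ _ := Finset.sum_le_sum fun v _ => hconv _
  have hsum' : 12 * a + 7 ≤ ∑ v, (G.degree v).choose 2 := by exact_mod_cast hsum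
  have hmod := mod_three G
  by_cases hall : ∀ v, G.degree v ≤ 3
  · -- all degrees are at most 3: exactly one vertex has degree 2
    have hdef : ∑ v, (3 - G.degree v) = 1 := by
      have h1 : ∑ v, ((3 - G.degree v) + G.degree v) = ∑ _v : Fin (4 * a + 3), 3 :=
        Finset.sum_congr rfl fun v _ => by have := hall v; omega
      rw [Finset.sum_add_distrib, hdeg] at h1
      simp at h1
      omega
    obtain ⟨u, hu1, hu2⟩ : ∃ u, 3 - G.degree u = 1 ∧ ∀ v, v ≠ u → G.degree v = 3 := by
      have hpos : ∃ u ∈ (univ : Finset (Fin (4 * a + 3))), 3 - G.degree u ≠ 0 := by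
        by_contra h
        push Not at h
        rw [Finset.sum_eq_zero h] at hdef
        omega
      obtain ⟨u, -, hu⟩ := hpos
      have h1 := Finset.sum_erase_add univ (fun v => 3 - G.degree v) (mem_univ u)
      rw [hdef] at h1
      refine ⟨u, by omega, fun v hv => ?_⟩
      have h2 : ∑ x ∈ univ.erase u, (3 - G.degree x) = 0 := by omega
      have h3 := Finset.sum_eq_zero_iff.1 h2 v (mem_erase.2 ⟨hv, mem_univ v⟩)
      have := hall v
      omega
    have hu : G.degree u = 2 := by omega
    have hC : ∑ v, (G.degree v).choose 2 = 12 * a + 7 := by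
      rw [← Finset.sum_erase_add univ _ (mem_univ u), hu]
      have : ∑ x ∈ univ.erase u, (G.degree x).choose 2 = ∑ x ∈ univ.erase u, 3 :=
        Finset.sum_congr rfl fun v hv => by rw [hu2 v (mem_erase.1 hv).1]; rfl
      rw [this]
      simp [Finset.card_erase_of_mem]
      ring
    rw [hC] at h3 hmod
    have hI : I G = 1 := by omega
    unfold I at hI
    obtain ⟨S0, hS0⟩ := Finset.card_eq_one.1 hI
    have huniq : ∀ S, S ∈ univ.filter (fun S : Finset (Fin (4 * a + 3)) => S.card = 3 ∧
        c G S = 1) → S = S0 := by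
      intro S hS
      rw [hS0] at hS
      exact mem_singleton.1 hS
    have hmem : S0 ∈ univ.filter (fun S : Finset (Fin (4 * a + 3)) => S.card = 3 ∧
        c G S = 1) := by rw [hS0]; exact mem_singleton_self _
    simp only [mem_filter, mem_univ, true_and] at hmem
    obtain ⟨hS3, hc1⟩ := hmem
    -- the centre b and the ends x, y
    obtain ⟨b, x, y, hbx, hby, hxy, hnxy, hS0'⟩ : ∃ b x y, G.Adj b x ∧ G.Adj b y ∧ x ≠ y ∧
        ¬ G.Adj x y ∧ S0 = {x, b, y} := by
      have hc0 := hc1
      unfold c at hc0
      obtain ⟨b, hb⟩ := Finset.card_eq_one.1 hc0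
      have hbC : Ctr G S0 b := by
        have : b ∈ univ.filter fun v => Ctr G S0 v := by rw [hb]; exact mem_singleton_self _
        simpa using this
      have hcard : (S0.erase b).card = 2 := by rw [card_erase_of_mem hbC.1, hS3]
      obtain ⟨x, y, hxy, hE⟩ := Finset.card_eq_two.1 hcard
      have hxS : x ∈ S0.erase b := by rw [hE]; simp
      have hyS : y ∈ S0.erase b := by rw [hE]; simp
      rw [mem_erase] at hxS hyS
      have hSe : S0 = {x, b, y} := by
        rw [← insert_erase hbC.1, hE]
        ext v; simp; tauto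
      refine ⟨b, x, y, hbC.2 x hxS.2 hxS.1, hbC.2 y hyS.2 hyS.1, hxy, ?_, hSe⟩
      intro hadj
      have hxC : Ctr G S0 x := by
        refine ⟨hxS.2, ?_⟩
        intro w hw hne
        rw [hSe] at hw
        simp only [mem_insert, mem_singleton] at hw
        rcases hw with rfl | rfl | rfl
        · exact absurd rfl hne
        · exact (hbC.2 x hxS.2 hxS.1).symm
        · exact hadj
      have : x ∈ univ.filter fun v => Ctr G S0 v := by simpa using hxC
      rw [hb, mem_singleton] at this
      exact hxS.1 this
    have hnot : ∀ w, w ≠ x → w ≠ b → w ≠ y → w ∉ S0 := by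
      intro w h1 h2 h3
      rw [hS0']
      simp [h1, h2, h3]
    have hdegb : G.degree b = 2 ∨ G.degree b = 3 := by
      by_cases h : b = u
      · left; rw [h, hu]
      · right; exact hu2 b h
    rcases hdegb with hdb | hdb
    · -- b has degree 2, x has degree 3
      have hbu : b = u := by
        by_contra h
        have := hu2 b h
        omega
      have hdx : G.degree x = 3 := hu2 x (by rw [← hbu]; exact hbx.ne.symm)
      -- a neighbour w of x different from b
      have hNb : G.neighborFinset b = {x, y} := by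
        symm
        apply Finset.eq_of_subset_of_card_le
        · intro w hw
          simp only [mem_insert, mem_singleton] at hw
          rw [SimpleGraph.mem_neighborFinset]
          rcases hw with rfl | rfl
          · exact hbx
          · exact hby
        · rw [SimpleGraph.card_neighborFinset_eq_degree, hdb, Finset.card_pair hxy]
      have hcard : 0 < ((G.neighborFinset x).erase b).card := by
        rw [card_erase_of_mem (by rw [SimpleGraph.mem_neighborFinset]; exact hbx.symm),
          SimpleGraph.card_neighborFinset_eq_degree, hdx]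
        norm_num
      obtain ⟨w, hw⟩ := Finset.card_pos.1 hcard
      rw [mem_erase, SimpleGraph.mem_neighborFinset] at hw
      have hwy : w ≠ y := fun h => hnxy (h ▸ hw.2)
      have hwx : w ≠ x := hw.2.ne.symm
      have hwb : ¬ G.Adj w b := by
        intro h
        have : w ∈ G.neighborFinset b := by rw [SimpleGraph.mem_neighborFinset]; exact h.symm
        rw [hNb] at this
        simp only [mem_insert, mem_singleton] at this
        rcases this with h | h
        · exact hwx h
        · exact hwy h
      have h1 := huniq _ (c_eq_one G w x b hw.1 hw.2 hbx.symm hwb)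
      exact hnot w hwx hw.1 hwy (h1 ▸ by simp)
    · -- b has degree 3
      have hcard : 0 < (((G.neighborFinset b).erase x).erase y).card := by
        rw [card_erase_of_mem, card_erase_of_mem,
          SimpleGraph.card_neighborFinset_eq_degree, hdb]
        · norm_num
        · rw [SimpleGraph.mem_neighborFinset]; exact hbx
        · rw [mem_erase, SimpleGraph.mem_neighborFinset]; exact ⟨hxy.symm, hby⟩
      obtain ⟨z, hz⟩ := Finset.card_pos.1 hcard
      rw [mem_erase, mem_erase, SimpleGraph.mem_neighborFinset] at hz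
      have hzS := hnot z hz.2.1 hz.2.2.ne.symm hz.1
      have hxz : G.Adj x z := by
        by_contra h
        have h1 := huniq _ (c_eq_one G x b z (Ne.symm hz.2.1) hbx hz.2.2 h)
        exact hzS (h1 ▸ by simp)
      have hyz : G.Adj y z := by
        by_contra h
        have h1 := huniq _ (c_eq_one G y b z (Ne.symm hz.1) hby hz.2.2 h)
        exact hzS (h1 ▸ by simp)
      have h1 := huniq _ (c_eq_one G x z y hxy hxz.symm hyz.symm hnxy)
      exact hzS (h1 ▸ by simp)
  · -- some degree is at least 4
    push Not at hall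
    obtain ⟨v, hv⟩ := hall
    have hconv' : ∀ d : ℕ, 4 ≤ d → 2 * (d : ℤ) - 2 ≤ (d.choose 2 : ℕ) := by
      intro d hd
      obtain ⟨d, rfl⟩ : ∃ k, d = k + 4 := ⟨d - 4, by omega⟩
      have h1 : ((d + 4).choose 2 : ℕ) = (d + 4) * (d + 3) / 2 := by
        rw [Nat.choose_two_right]; rfl
      have h2 : 2 * (d + 4) ≤ (d + 4) * (d + 3) / 2 + 2 := by
        have : (2 * (d + 4) - 2) * 2 ≤ (d + 4) * (d + 3) := by
          have : (2 * (d + 4) - 2) = 2 * d + 6 := by omega
          rw [this]; nlinarith
        omega
      push_cast at h1 h2 ⊢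
      rw [h1]
      omega
    -- general estimate with the number of vertices of degree at least 4
    have hB : ∀ B : Finset (Fin (4 * a + 3)), (∀ w ∈ B, 4 ≤ G.degree w) →
        12 * a + 7 + B.card ≤ ∑ v, (G.degree v).choose 2 := by
      intro B hB
      have : ((12 * a + 7 + B.card : ℕ) : ℤ) ≤ ∑ v, ((G.degree v).choose 2 : ℤ) := by
        calc ((12 * a + 7 + B.card : ℕ) : ℤ)
            = ∑ v, (2 * (G.degree v : ℤ) - 3 + if v ∈ B then 1 else 0) := by
              rw [Finset.sum_add_distrib, Finset.sum_sub_distrib, ← Finset.mul_sum]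
              have : (∑ v, (G.degree v : ℤ)) = 12 * a + 8 := by exact_mod_cast hdeg
              rw [this]
              simp
              ring
          _ ≤ _ := by
              refine Finset.sum_le_sum fun w _ => ?_
              by_cases hw : w ∈ B
              · have := hconv' _ (hB w hw)
                simp [hw]; linarith
              · have := hconv (G.degree w)
                simp [hw]; linarith
      exact_mod_cast this
    have hI0 : I G = 0 := by
      have h1 := hB {v} (by intro w hw; rw [mem_singleton.1 hw]; omega)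
      simp at h1
      omega
    have htrans : ∀ b x y, G.Adj b x → G.Adj b y → x ≠ y → G.Adj x y := by
      intro b x y hbx hby hxy
      by_contra h
      have h1 := c_eq_one G x b y hxy hbx hby h
      unfold I at hI0
      rw [Finset.card_eq_zero] at hI0
      rw [hI0] at h1
      simp at h1
    have h5 := hB (insert v (G.neighborFinset v)) (by
      intro w hw
      rcases mem_insert.1 hw with rfl | hw
      · omega
      · rw [SimpleGraph.mem_neighborFinset] at hw
        have hsub : (insert v (G.neighborFinset v)).erase w ⊆ G.neighborFinset w := by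
          intro t ht
          rw [mem_erase, mem_insert, SimpleGraph.mem_neighborFinset] at ht
          rw [SimpleGraph.mem_neighborFinset]
          rcases ht.2 with rfl | h
          · exact hw.symm
          · exact htrans v w t hw h ht.1.symm
        have hc := Finset.card_le_card hsub
        rw [card_erase_of_mem (mem_insert_of_mem (by rwa [SimpleGraph.mem_neighborFinset])),
          card_insert_of_notMem (by simp), SimpleGraph.card_neighborFinset_eq_degree,
          SimpleGraph.card_neighborFinset_eq_degree] at hc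
        omega)
    rw [card_insert_of_notMem (by simp), SimpleGraph.card_neighborFinset_eq_degree] at h5
    omega

end lower

section upper

/-- classes of the partition into a pair, three triples and quadruples -/
def kap (i : ℕ) : ℕ := if i < 2 then 0 else if i < 11 then 1 + (i - 2) / 3 else 4 + (i - 11) / 4

/-- disjoint union of one `K_2`, three `K_3` and copies of `K_4` -/
def G0 (n : ℕ) : SimpleGraph (Fin n) where
  Adj u v := u ≠ v ∧ kap u.val = kap v.val
  symm := ⟨fun _ _ h => ⟨h.1.symm, h.2.symm⟩⟩
  loopless := ⟨fun _ h => h.1 rfl⟩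

/-- degrees -/
def dg (i : ℕ) : ℕ := if i < 2 then 1 else if i < 11 then 2 else 3

open Classical in
lemma degree_G0 (b : ℕ) (v : Fin (11 + 4 * b)) : (G0 (11 + 4 * b)).degree v = dg v.val := by
  have hv := v.2
  obtain ⟨lo, hi, hlo, hhi, h1, h2, h3⟩ : ∃ lo hi : ℕ, lo ≤ v.val ∧ v.val ≤ hi ∧
      hi < 11 + 4 * b ∧ hi = lo + dg v.val ∧ ∀ w : ℕ, kap w = kap v.val ↔ lo ≤ w ∧ w ≤ hi := by
    by_cases h : v.val < 2
    · refine ⟨0, 1, by omega, by omega, by omega, by simp [dg, h], fun w => ?_⟩
      simp only [kap, h, if_true]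
      split_ifs <;> omega
    · by_cases h' : v.val < 11
      · refine ⟨2 + 3 * ((v.val - 2) / 3), 4 + 3 * ((v.val - 2) / 3), by omega, by omega,
          by omega, by simp only [dg, h, h', if_true, if_false]; omega, fun w => ?_⟩
        simp only [kap, h, h', if_true, if_false]
        split_ifs <;> omega
      · refine ⟨11 + 4 * ((v.val - 11) / 4), 14 + 4 * ((v.val - 11) / 4), by omega, by omega,
          by omega, by simp only [dg, h, h', if_false]; omega, fun w => ?_⟩
        simp only [kap, h, h', if_false]
        split_ifs <;> omega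
  have hN : (G0 (11 + 4 * b)).neighborFinset v =
      (Finset.Icc (⟨lo, by omega⟩ : Fin (11 + 4 * b)) ⟨hi, h1⟩).erase v := by
    ext w
    rw [SimpleGraph.mem_neighborFinset, mem_erase, mem_Icc]
    show v ≠ w ∧ kap v.val = kap w.val ↔ _
    rw [eq_comm (a := kap v.val), h3]
    constructor
    · rintro ⟨h, h'⟩
      exact ⟨h.symm, h'⟩
    · rintro ⟨h, h'⟩
      exact ⟨h.symm, h'⟩
  rw [← SimpleGraph.card_neighborFinset_eq_degree, hN, card_erase_of_mem, Fin.card_Icc]
  · simp only []
    omega
  · rw [mem_Icc]
    exact ⟨hlo, hhi⟩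

lemma sum_dg (b : ℕ) : ∑ i ∈ range (11 + 4 * b), dg i = 20 + 12 * b ∧
    ∑ i ∈ range (11 + 4 * b), (dg i).choose 2 = 9 + 12 * b := by
  induction b with
  | zero => decide
  | succ b ih =>
    have e : 11 + 4 * (b + 1) = 11 + 4 * b + 1 + 1 + 1 + 1 := by ring
    have h : ∀ i, 11 ≤ i → dg i = 3 := by
      intro i hi
      simp [dg, show ¬ i < 2 by omega, show ¬ i < 11 by omega]
    rw [e]
    simp only [sum_range_succ, ih.1, ih.2]
    rw [h (11 + 4 * b) (by omega), h (11 + 4 * b + 1) (by omega), h (11 + 4 * b + 1 + 1) (by omega),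
      h (11 + 4 * b + 1 + 1 + 1) (by omega)]
    constructor
    · ring
    · simp only [show Nat.choose 3 2 = 3 from rfl]; ring

open Classical in
lemma I_G0 (n : ℕ) : I (G0 n) = 0 := by
  unfold I
  rw [Finset.card_eq_zero, Finset.filter_eq_empty_iff]
  rintro S - ⟨hS, hc⟩
  have hne : (univ.filter fun v => Ctr (G0 n) S v).Nonempty := by
    rw [← Finset.card_pos]
    unfold c at hc
    omega
  obtain ⟨v, hv⟩ := hne
  have hv' : Ctr (G0 n) S v := by simpa using hv
  have hk : ∀ w ∈ S, kap w.val = kap v.val := by
    intro w hw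
    by_cases h : w = v
    · rw [h]
    · exact (hv'.2 w hw h).2.symm
  have hall : S ⊆ univ.filter fun v => Ctr (G0 n) S v := by
    intro w hw
    simp only [mem_filter, mem_univ, true_and]
    exact ⟨hw, fun t ht hne => ⟨hne.symm, (hk w hw).trans (hk t ht).symm⟩⟩
  have := Finset.card_le_card hall
  unfold c at hc
  omega

open Classical in
lemma upper (b : ℕ) : (G0 (11 + 4 * b)).edgeSet.ncard = 10 + 6 * b ∧
    s3 (G0 (11 + 4 * b)) = 3 + 4 * b := by
  constructor
  · rw [← SimpleGraph.coe_edgeFinset, Set.ncard_coe_finset]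
    have h := (G0 (11 + 4 * b)).sum_degrees_eq_twice_card_edges
    simp only [degree_G0] at h
    rw [Fin.sum_univ_eq_sum_range (fun i => dg i), (sum_dg b).1] at h
    omega
  · have h := three_s3 (G0 (11 + 4 * b))
    simp only [degree_G0] at h
    rw [Fin.sum_univ_eq_sum_range (fun i => (dg i).choose 2), (sum_dg b).2, I_G0] at h
    omega

end upper

lemma exists_graph (n e : ℕ) (he : e ≤ n.choose 2) :
    ∃ G : SimpleGraph (Fin n), G.edgeSet.ncard = e := by
  classical
  have h : e ≤ (⊤ : SimpleGraph (Fin n)).edgeFinset.card := by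
    rw [SimpleGraph.card_edgeFinset_top_eq_card_choose_two]
    simpa using he
  obtain ⟨T, hT, hc⟩ := Finset.exists_subset_card_eq h
  refine ⟨SimpleGraph.fromEdgeSet (T : Set (Sym2 (Fin n))), ?_⟩
  rw [SimpleGraph.edgeSet_fromEdgeSet]
  have : (T : Set (Sym2 (Fin n))) \ Sym2.diagSet = (T : Set (Sym2 (Fin n))) := by
    rw [sdiff_eq_left, Set.disjoint_left]
    intro x hx hd
    have h1 := hT hx
    rw [SimpleGraph.mem_edgeFinset, SimpleGraph.edgeSet_top] at h1
    exact h1 hd
  rw [this, Set.ncard_coe_finset, hc]

/-- The period `P_p = (p + 2 choose 2)`. -/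
def P (p : ℕ) : ℕ := (p + 2).choose 2

/-- The increment `D_p = p (p + 1) (p + 2) / 3`. -/
def D (p : ℕ) : ℕ := p * (p + 1) * (p + 2) / 3

/-- For `p = 2` and every `n = 4 a + 3` with `a ≥ 3` the claimed equality fails at `e = 6 a - 2`:
the difference is larger than `D_2`. In particular the claimed periodicity is false. -/
theorem result :
    (∀ a : ℕ, 3 ≤ a → 2 * (4 * a + 3) < 2 * (6 * a - 2) ∧
      2 * ((6 * a - 2) + P 2) < (2 + 1) * (4 * a + 3) ∧
      m (4 * a + 3) (6 * a - 2) + D 2 < m (4 * a + 3) ((6 * a - 2) + P 2)) ∧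
    ¬ ∀ p n e : ℕ, p * n < 2 * e → 2 * (e + P p) < (p + 1) * n →
      (m n (e + P p) : ℤ) - m n e = D p := by
  have main : ∀ a : ℕ, 3 ≤ a → 2 * (4 * a + 3) < 2 * (6 * a - 2) ∧
      2 * ((6 * a - 2) + P 2) < (2 + 1) * (4 * a + 3) ∧
      m (4 * a + 3) (6 * a - 2) + D 2 < m (4 * a + 3) ((6 * a - 2) + P 2) := by
    intro a ha
    have hP : P 2 = 6 := rfl
    have hD : D 2 = 8 := rfl
    rw [hP, hD]
    refine ⟨by omega, by omega, ?_⟩
    have h1 : m (4 * a + 3) (6 * a - 2) ≤ 4 * a - 5 := by
      obtain ⟨b, rfl⟩ : ∃ b, a = b + 2 := ⟨a - 2, by omega⟩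
      have e1 : 4 * (b + 2) + 3 = 11 + 4 * b := by ring
      have e2 : 6 * (b + 2) - 2 = 10 + 6 * b := by omega
      have e3 : 4 * (b + 2) - 5 = 3 + 4 * b := by omega
      rw [e1, e2, e3]
      exact Nat.sInf_le ⟨G0 (11 + 4 * b), (upper b).1, (upper b).2⟩
    have h2 : 4 * a + 4 ≤ m (4 * a + 3) (6 * a - 2 + 6) := by
      have e4 : 6 * a - 2 + 6 = 6 * a + 4 := by omega
      rw [e4]
      have hne : {k : ℕ | ∃ G : SimpleGraph (Fin (4 * a + 3)), G.edgeSet.ncard = 6 * a + 4 ∧
          s3 G = k}.Nonempty := by
        obtain ⟨G, hG⟩ := exists_graph (4 * a + 3) (6 * a + 4) (by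
          rw [Nat.choose_two_right]
          have : (6 * a + 4) * 2 ≤ (4 * a + 3) * (4 * a + 3 - 1) := by
            have : 4 * a + 3 - 1 = 4 * a + 2 := by omega
            rw [this]; nlinarith
          omega)
        exact ⟨_, G, hG, rfl⟩
      obtain ⟨G, hG, hG'⟩ := Nat.sInf_mem hne
      have := lower a G hG
      unfold m
      rw [← hG']
      exact this
    omega
  refine ⟨main, fun h => ?_⟩
  obtain ⟨h1, h2, h3⟩ := main 3 le_rfl
  have h4 := h 2 15 16 (by norm_num) (by decide)
  have e5 : (4 * 3 + 3 : ℕ) = 15 := rfl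
  have e6 : (6 * 3 - 2 : ℕ) = 16 := rfl
  rw [e5, e6] at h3
  omega

end Pool.Agent.Results.MP_6d30b5_co.NotPeriodic
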